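import Pool.Agent.Helper69.QG.St2

open Complex Set Metric
open scoped ComplexConjugate

namespace Pool.Agent.Helper10.QG

open Pool.Agent.Helper69.QG

theorem psi_re (z : ℂ) : (psi z).re = 2 / (tau * (1 + ‖z‖ ^ 2)) * z.re := by
  unfold psi
  rw [Complex.re_ofReal_mul]

theorem psi_im (z : ℂ) : (psi z).im = 2 / (tau * (1 + ‖z‖ ^ 2)) * z.im := by
  unfold psi
  rw [Complex.im_ofReal_mul]

theorem lf0 (z : ℂ) : lf (Xm z) (ev 0) = 2 * z.re / (1 - ‖z‖ ^ 2) := by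
  simp [lf, Xm, ev]

theorem lf2 (z : ℂ) : lf (Xm z) (ev 2) = 2 * z.im / (1 - ‖z‖ ^ 2) := by
  simp [lf, Xm, ev]

theorem lf1 (z : ℂ) :
    lf (Xm z) (ev 1) = (sg * (1 + ‖z‖ ^ 2) - 2 * kp * z.re) / (1 - ‖z‖ ^ 2) := by
  simp [lf, Xm, ev]
  ring

theorem lf3 (z : ℂ) :
    lf (Xm z) (ev 3) = (sg * (1 + ‖z‖ ^ 2) - 2 * kp * z.im) / (1 - ‖z‖ ^ 2) := by
  simp [lf, Xm, ev]
  ring

theorem ev_ne (s : Fin 4) : ev s ≠ 0 := by
  intro h
  have h1 := lf_ev_self s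
  rw [h] at h1
  simp [lf] at h1

theorem wall (s : Fin 4) (z : DD) : act (gen s) z = z ↔ lf (Xm z) (ev s) = 0 := by
  rw [act_gen]
  constructor
  · intro h
    have h1 : Xm (Rp s z : DD) = Xm z := by rw [h]
    rw [Xm_Rp] at h1
    unfold rf at h1
    rw [sub_eq_self] at h1
    rcases smul_eq_zero.1 h1 with h2 | h2
    · linarith
    · exact absurd h2 (ev_ne s)
  · intro h
    apply DD_ext
    rw [Xm_Rp]
    unfold rf
    rw [h, mul_zero, zero_smul, sub_zero]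

theorem nlt (z : DD) : ‖(z : ℂ)‖ ^ 2 < 1 := by
  rw [nsq]
  exact lt_one_of_mem z.2

theorem mem_Sq (pbd : St_PBD) (z : DD) : z ∈ Pc ↔ psi z ∈ Sq := by
  obtain ⟨h1, -, -, -, -, -, h7⟩ := pbd
  have ht := tau_pos
  have hn : 0 < 1 + ‖(z : ℂ)‖ ^ 2 := by positivity
  have hC : ∀ t : ℝ, 2 / (tau * (1 + ‖(z : ℂ)‖ ^ 2)) * t = 2 * C0 * t / (1 + ‖(z : ℂ)‖ ^ 2) := by
    intro t
    have hC0 : C0 = 1 / tau := by
      field_simp
      linarith
    rw [hC0]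
    field_simp
  have h0 := C0_pos
  rw [h1]
  unfold Sq
  rw [mem_ofPred_eq, psi_re, psi_im, hC, hC, div_le_one hn, div_le_one hn]
  have hs : ∀ t : ℝ, 0 ≤ 2 * C0 * t / (1 + ‖(z : ℂ)‖ ^ 2) ↔ 0 ≤ t := by
    intro t
    have h2 : 2 * C0 * t / (1 + ‖(z : ℂ)‖ ^ 2) = (2 * C0 / (1 + ‖(z : ℂ)‖ ^ 2)) * t := by ring
    rw [h2]
    exact mul_nonneg_iff_of_pos_left (by positivity)
  rw [hs, hs]
  tauto

theorem chi_psi (z : DD) : chi (psi z) = z := by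
  have ht := tau_pos
  have hn1 := nlt z
  have hn : 0 < 1 + ‖(z : ℂ)‖ ^ 2 := by positivity
  have e1 : tau ^ 2 * ‖psi z‖ ^ 2 = (2 / (1 + ‖(z : ℂ)‖ ^ 2)) ^ 2 * ‖(z : ℂ)‖ ^ 2 := by
    unfold psi
    rw [norm_mul, Complex.norm_real, Real.norm_eq_abs, abs_of_pos (by positivity), mul_pow]
    field_simp
  have e2 : Real.sqrt (1 - tau ^ 2 * ‖psi z‖ ^ 2) =
      (1 - ‖(z : ℂ)‖ ^ 2) / (1 + ‖(z : ℂ)‖ ^ 2) := by
    rw [e1]
    have e3 : 1 - (2 / (1 + ‖(z : ℂ)‖ ^ 2)) ^ 2 * ‖(z : ℂ)‖ ^ 2 =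
        ((1 - ‖(z : ℂ)‖ ^ 2) / (1 + ‖(z : ℂ)‖ ^ 2)) ^ 2 := by
      field_simp
      ring
    rw [e3, Real.sqrt_sq (div_nonneg (by linarith) hn.le)]
  unfold chi
  rw [e2]
  unfold psi
  rw [← mul_assoc, ← mul_assoc, ← Complex.ofReal_mul, ← Complex.ofReal_mul]
  have e4 : 1 / (1 + (1 - ‖(z : ℂ)‖ ^ 2) / (1 + ‖(z : ℂ)‖ ^ 2)) * tau *
      (2 / (tau * (1 + ‖(z : ℂ)‖ ^ 2))) = 1 := by
    have e5 : 1 + (1 - ‖(z : ℂ)‖ ^ 2) / (1 + ‖(z : ℂ)‖ ^ 2) = 2 / (1 + ‖(z : ℂ)‖ ^ 2) := by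
      field_simp
      ring
    rw [e5]
    field_simp
  rw [e4, Complex.ofReal_one, one_mul]

theorem chi_sq (pbd : St_PBD) {u : ℂ} (hu : u ∈ Sq) :
    chi u ∈ ball (0 : ℂ) 1 ∧ psi (chi u) = u := by
  obtain ⟨-, -, -, -, -, h6, -⟩ := pbd
  have ht := tau_pos
  obtain ⟨u1, u2, u3, u4⟩ := hu
  have hq : tau ^ 2 * ‖u‖ ^ 2 < 1 := by
    rw [h6, nsq]
    have h2 : Real.sqrt 2 < 3 / 2 := by
      rw [Real.sqrt_lt' (by norm_num)]
      norm_num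
    have h3 : u.re ^ 2 + u.im ^ 2 ≤ 2 := by nlinarith
    have h4 : 0 ≤ u.re ^ 2 + u.im ^ 2 := by positivity
    nlinarith
  set s : ℝ := Real.sqrt (1 - tau ^ 2 * ‖u‖ ^ 2) with hs
  have hs0 : 0 < s := Real.sqrt_pos.2 (by linarith)
  have hs2 : s ^ 2 = 1 - tau ^ 2 * ‖u‖ ^ 2 := Real.sq_sqrt (by linarith)
  have hchi : chi u = ((tau / (1 + s) : ℝ) : ℂ) * u := by
    unfold chi
    rw [← hs, ← mul_assoc, ← Complex.ofReal_mul]
    congr 2
    ring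
  have hnorm : ‖chi u‖ ^ 2 = (1 - s) / (1 + s) := by
    rw [hchi, norm_mul, Complex.norm_real, Real.norm_eq_abs, abs_of_pos (by positivity), mul_pow,
      div_pow]
    have h5 : tau ^ 2 * ‖u‖ ^ 2 = (1 - s) * (1 + s) := by linarith
    rw [div_mul_eq_mul_div, h5]
    field_simp
  have hlt : ‖chi u‖ ^ 2 < 1 := by
    rw [hnorm, div_lt_one (by positivity)]
    linarith
  refine ⟨?_, ?_⟩
  · apply mem_of_lt_one
    rw [← nsq]
    exact hlt
  · have h7 : 1 + (1 - s) / (1 + s) = 2 / (1 + s) := by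
      field_simp
      ring
    unfold psi
    rw [hnorm, h7, hchi, ← mul_assoc, ← Complex.ofReal_mul]
    have h8 : 2 / (tau * (2 / (1 + s))) * (tau / (1 + s)) = 1 := by
      field_simp
    rw [h8, Complex.ofReal_one, one_mul]

theorem pt_of {u : ℂ} (h : chi u ∈ ball (0 : ℂ) 1) : pt u = ⟨chi u, h⟩ := by
  unfold pt
  rw [dif_pos h]

theorem continuous_chi : Continuous chi := by
  unfold chi
  apply Continuous.mul
  · apply Complex.continuous_ofReal.comp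
    apply Continuous.div continuous_const
    · fun_prop
    · intro u
      have := Real.sqrt_nonneg (1 - tau ^ 2 * ‖u‖ ^ 2)
      linarith
  · fun_prop

theorem continuous_psi : Continuous psi := by
  unfold psi
  apply Continuous.mul
  · apply Complex.continuous_ofReal.comp
    apply Continuous.div continuous_const
    · fun_prop
    · intro u
      have := tau_pos
      positivity
  · fun_prop

theorem cPCH (pbd : St_PBD) : St_PCH := by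
  have ht := tau_pos
  refine ⟨?_, ?_, ?_, continuous_psi.continuousOn, ?_⟩
  · intro z hz
    refine ⟨(mem_Sq pbd z).1 hz, ?_⟩
    have h1 : chi (psi z) ∈ ball (0 : ℂ) 1 := by
      rw [chi_psi]
      exact z.2
    rw [pt_of h1]
    exact Subtype.ext (chi_psi z)
  · intro u hu
    obtain ⟨h1, h2⟩ := chi_sq pbd hu
    have h3 : ((pt u : DD) : ℂ) = chi u := by rw [pt_of h1]
    refine ⟨?_, h3, ?_⟩
    · rw [mem_Sq pbd, h3, h2]
      exact hu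
    · rw [h3, h2]
  · rw [Topology.IsInducing.subtypeVal.continuousOn_iff]
    refine continuous_chi.continuousOn.congr ?_
    intro u hu
    obtain ⟨h1, -⟩ := chi_sq pbd hu
    change ((pt u : DD) : ℂ) = chi u
    rw [pt_of h1]
  · intro z _
    have hn1 := nlt z
    have hd : (1 : ℝ) - ‖(z : ℂ)‖ ^ 2 ≠ 0 := by linarith
    have hn : 0 < 1 + ‖(z : ℂ)‖ ^ 2 := by positivity
    have hsg := sg_pos
    have hkp := kp_pos
    have hz0 : ∀ t : ℝ, 2 * t / (1 - ‖(z : ℂ)‖ ^ 2) = 0 ↔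
        2 / (tau * (1 + ‖(z : ℂ)‖ ^ 2)) * t = 0 := by
      intro t
      have h1 : 2 / (tau * (1 + ‖(z : ℂ)‖ ^ 2)) ≠ 0 := by positivity
      rw [div_eq_zero_iff, or_iff_left hd, mul_eq_zero, mul_eq_zero, or_iff_right two_ne_zero,
        or_iff_right h1]
    have hz1 : ∀ t : ℝ, (sg * (1 + ‖(z : ℂ)‖ ^ 2) - 2 * kp * t) / (1 - ‖(z : ℂ)‖ ^ 2) = 0 ↔
        2 / (tau * (1 + ‖(z : ℂ)‖ ^ 2)) * t = 1 := by
      intro t
      have h1 : 2 / (tau * (1 + ‖(z : ℂ)‖ ^ 2)) * t =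
          2 * kp * t / (sg * (1 + ‖(z : ℂ)‖ ^ 2)) := by
        unfold tau
        field_simp
      rw [div_eq_zero_iff, or_iff_left hd, h1, div_eq_one_iff_eq (by positivity), sub_eq_zero,
        eq_comm]
    refine ⟨?_, ?_, ?_, ?_⟩
    · rw [wall, lf0, psi_re, hz0]
    · rw [wall, lf1, psi_re, hz1]
    · rw [wall, lf2, psi_im, hz0]
    · rw [wall, lf3, psi_im, hz1]

end Pool.Agent.Helper10.QG
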